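import Pool.Agent.Helper52.GPM.S

/-!
# Gilbert-Pollak, module xPert: first order perturbation of the least weight
-/

set_option autoImplicit false

namespace Pool.Agent.Helper11.GPM

open Relation Classical Filter Topology Pool.Agent.Helper18.GP Pool.Agent.Helper52.GPM

private theorem wp_nonneg_xPert {N : ℕ} {V : Finset (Fin N)} {w : Fin N → Fin N → ℝ}
    (h : WP V w) : ∀ a ∈ V, ∀ b ∈ V, 0 ≤ w a b := by
  intro a ha b hb
  by_cases hab : a = b
  · subst hab
    rw [h.di a ha]
  · exact (h.po a ha b hb hab).le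

theorem mod_xPert (hA : stMAtt) (hC : xLoop ∧ xEx ∧ xSplit ∧ xBridge ∧ xExch) (hS : xSame) :
    xPert := by
  intro N V w F wt k D hWP hnn h0 hc hD hl
  have key : ∀ m : Finset (Fin N × Fin N), ∀ᶠ t in 𝓝 (0 : ℝ),
      (MConn V F m → Mst V w F + t * D ≤ mw (wt t) m) := by
    intro m
    by_cases hm : MConn V F m
    swap
    · exact Eventually.of_forall fun t h => absurd h hm
    have hle : Mst V w F ≤ mw w m := Mst_le (wp_nonneg_xPert hWP) hm
    rcases hle.lt_or_eq with hlt | heq
    · have hcont : Tendsto (fun t : ℝ => mw (wt t) m - t * D) (𝓝 0)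
          (𝓝 (mw (wt 0) m - 0 * D)) := by
        apply Tendsto.sub
        · unfold mw
          apply tendsto_finsetSum
          intro e he
          exact hc e.1 (hm.1 e he).1 e.2 (hm.1 e he).2
        · exact tendsto_id.mul_const D
      have h1 : mw (wt 0) m = mw w m := by
        unfold mw
        exact Finset.sum_congr rfl fun e he => h0 e.1 (hm.1 e he).1 e.2 (hm.1 e he).2
      rw [h1, zero_mul, sub_zero] at hcont
      filter_upwards [hcont.eventually_const_lt hlt] with t ht _
      linarith
    · have hloop := hC.1 N V w F hWP m hm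
      set m0 := m.filter fun e => e.1 ≠ e.2 with hm0
      have hopt : Opt V w F m0 := by
        refine ⟨hloop.1, by rw [hloop.2, heq], ?_⟩
        intro e he
        exact (Finset.mem_filter.1 he).2
      obtain ⟨m1, hm1, hDm⟩ := hD
      have hD0 : D = ∑ e ∈ m0, k (w e.1 e.2) * w e.1 e.2 := by
        rw [hDm]
        exact hS N V w F hWP m1 m0 hm1 hopt (fun x => k x * x)
      have hev : ∀ᶠ t in 𝓝 (0 : ℝ), ∀ e ∈ m0,
          w e.1 e.2 * (1 + t * k (w e.1 e.2)) ≤ wt t e.1 e.2 := by
        rw [Filter.eventually_all_finset]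
        intro e he
        obtain ⟨ε, hε, hh⟩ := hl m0 hopt e he
        rw [Metric.eventually_nhds_iff]
        refine ⟨ε, hε, fun t ht => hh t ?_⟩
        simpa [Real.dist_eq] using ht
      filter_upwards [hev] with t ht _
      have h2 : mw (wt t) m0 ≤ mw (wt t) m := by
        unfold mw
        exact Finset.sum_le_sum_of_subset_of_nonneg (Finset.filter_subset _ _)
          fun e _ _ => hnn t e.1 e.2
      have h3 : ∑ e ∈ m0, w e.1 e.2 * (1 + t * k (w e.1 e.2)) ≤ mw (wt t) m0 := by
        unfold mw
        exact Finset.sum_le_sum ht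
      have h4 : ∑ e ∈ m0, w e.1 e.2 * (1 + t * k (w e.1 e.2)) = mw w m0 + t * D := by
        rw [hD0, Finset.mul_sum]
        unfold mw
        rw [← Finset.sum_add_distrib]
        apply Finset.sum_congr rfl
        intro e _
        ring
      have h5 : mw w m0 = Mst V w F := hopt.2.1
      linarith
  have hall := Filter.eventually_all.2 key
  rw [Metric.eventually_nhds_iff] at hall
  obtain ⟨ε, hε, hh⟩ := hall
  refine ⟨ε, hε, fun t ht => ?_⟩
  obtain ⟨m, hm, hme⟩ := hA N V (wt t) F
  rw [← hme]
  exact hh (by simpa [Real.dist_eq] using ht) m hm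

end Pool.Agent.Helper11.GPM
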